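import Mathlib
import Pool.Graph.R_seed8.W830.RD.Stm

/-!
# Project RO: the dimension of random graph orders at `p = c / n`
Definitions and exact statements of all parts.
`Om n`, `gle E`, `Pr p n Q`, `Rlz le k` are from the library module `Pool.Graph.R_seed8.W830.RD.Stm`.
-/

set_option autoImplicit false

namespace Pool.Agent.H958.RO

open Finset Filter Topology
open scoped Classical
open Pool.Agent.W830.RD (Om gle Pr Rlz)

noncomputable section

/-! ## Order part -/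

/-- `k` monotone functions to `ℕ` such that every pair in `X` is reversed strictly by one of them. -/
def Rev {α : Type} (le : α → α → Prop) (X : α → α → Prop) (k : ℕ) : Prop :=
  ∃ f : Fin k → α → ℕ, (∀ i x y, le x y → f i x ≤ f i y) ∧ ∀ x y, X x y → ∃ i, f i y < f i x

/-- STEP: elements with bounded up-sets whose members have bounded down-sets. -/
def S_STEP : Prop := ∀ (α : Type) [Fintype α] (le : α → α → Prop) (K : ℕ) (X : α → Prop),
  (∀ x, le x x) → (∀ x y z, le x y → le y z → le x z) →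
  (∀ x, X x → (univ.filter (fun u => le x u)).card ≤ K) →
  (∀ x, X x → ∀ u, le x u → (univ.filter (fun w => le w u)).card ≤ K) →
  Rev le (fun x y => X x ∧ ¬ le x y) (2 * (K ^ 2 + 1))

/-- FLIP: reversal of the order. -/
def S_FLIP : Prop := ∀ (α : Type) [Fintype α] (le : α → α → Prop) (X : α → α → Prop) (k : ℕ),
  Rev (fun x y => le y x) (fun x y => X y x) k → Rev le X k

/-- EXT: extension of monotone functions from a subset. -/
def S_EXT : Prop := ∀ (α : Type) [Fintype α] (le le' : α → α → Prop) (N : α → Prop)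
  (X : α → α → Prop) (k : ℕ),
  (∀ x, le x x) → (∀ x y z, le x y → le y z → le x z) →
  (∀ x y, N x → N y → le x y → le' x y) → Rev le' X k →
  Rev le (fun x y => N x ∧ N y ∧ X x y) k

/-- UNI: union of two families. -/
def S_UNI : Prop := ∀ (α : Type) (le : α → α → Prop) (X Y : α → α → Prop) (k m : ℕ),
  Rev le X k → Rev le Y m → Rev le (fun x y => X x y ∨ Y x y) (k + m)

/-- FIN: from monotone functions to a realiser. -/
def S_FIN : Prop := ∀ (n k : ℕ) (E : Finset (Fin n × Fin n)), E ⊆ Om n → 1 ≤ k →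
  Rev (gle E) (fun x y => ¬ gle E x y ∧ ¬ gle E y x) k → Rlz (gle E) k

/-! ## Graph part -/

/-- The undirected graph of the edge set `E`. -/
def GG {n : ℕ} (E : Finset (Fin n × Fin n)) : SimpleGraph (Fin n) where
  Adj a b := a ≠ b ∧ ((a, b) ∈ E ∨ (b, a) ∈ E)
  symm := ⟨fun a b h => ⟨h.1.symm, h.2.symm⟩⟩
  loopless := ⟨fun a h => h.1 rfl⟩

/-- The edges inside `S`. -/
def res {n : ℕ} (E : Finset (Fin n × Fin n)) (S : Finset (Fin n)) : Finset (Fin n × Fin n) :=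
  E.filter (fun e => e.1 ∈ S ∧ e.2 ∈ S)

/-- Incomparable pairs of elements of `A` in the order generated by the edges inside `A`. -/
def IncOn {n : ℕ} (E : Finset (Fin n × Fin n)) (A : Finset (Fin n)) (x y : Fin n) : Prop :=
  x ∈ A ∧ y ∈ A ∧ ¬ gle (res E A) x y ∧ ¬ gle (res E A) y x

/-- The number of neighbours of `v` in `S`. -/
def dg {n : ℕ} (E : Finset (Fin n × Fin n)) (S : Finset (Fin n)) (v : Fin n) : ℕ :=
  (S.filter (fun w => (GG E).Adj v w)).card

/-- `A` induces a forest. -/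
def Forest {n : ℕ} (E : Finset (Fin n × Fin n)) (A : Finset (Fin n)) : Prop :=
  ∀ B ⊆ A, B.Nonempty → ∃ v ∈ B, dg E B v ≤ 1

/-- ADDR: addresses of the vertices of a forest (the address of the parent followed by the
vertex). -/
def S_ADDR : Prop := ∀ (n : ℕ) (E : Finset (Fin n × Fin n)) (A : Finset (Fin n)),
  Forest E A → ∃ addr : Fin n → List (Fin n),
    (∀ a ∈ A, addr a = [a] ∨ ∃ b ∈ A, (GG E).Adj a b ∧ addr a = addr b ++ [a]) ∧
    (∀ a ∈ A, ∀ b ∈ A, (GG E).Adj a b → addr a = addr b ++ [a] ∨ addr b = addr a ++ [b])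

/-- FOREST: orders generated by forests. -/
def S_FOREST : Prop := ∀ (n : ℕ) (E : Finset (Fin n × Fin n)) (A : Finset (Fin n)), E ⊆ Om n →
  Forest E A → Rev (gle (res E A)) (IncOn E A) 4

/-- Elements comparable with different members of `Y` are incomparable. -/
def Unrel {n : ℕ} (E : Finset (Fin n × Fin n)) (N Y : Finset (Fin n)) : Prop :=
  ∀ y ∈ Y, ∀ y' ∈ Y, y ≠ y' → ∀ a b, (gle (res E N) y a ∨ gle (res E N) a y) →
    (gle (res E N) y' b ∨ gle (res E N) b y') → ¬ gle (res E N) a b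

/-- YREM: removal of the vertices of `Y`. -/
def S_YREM : Prop := ∀ (n : ℕ) (E : Finset (Fin n × Fin n)) (N Y : Finset (Fin n)) (k : ℕ),
  E ⊆ Om n → Y ⊆ N → 1 ≤ k → Unrel E N Y →
  Rev (gle (res E (N \ Y))) (IncOn E (N \ Y)) k → Rev (gle (res E N)) (IncOn E N) (2 * k + 2)

/-- The number of steps of the walk which change the block. -/
def ic {n : ℕ} (bl : Fin n → ℕ) {G : SimpleGraph (Fin n)} {a b : Fin n} (p : G.Walk a b) : ℕ :=
  (p.darts.filter (fun d => bl d.fst ≠ bl d.snd)).length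

/-- `a` and `b` are joined inside `S` by a walk with at most `k` changes of the block. -/
def Near {n : ℕ} (E : Finset (Fin n × Fin n)) (bl : Fin n → ℕ) (S : Finset (Fin n)) (k : ℕ)
    (a b : Fin n) : Prop :=
  ∃ p : (GG (res E S)).Walk a b, ic bl p ≤ k

/-- `S` is covered by at most `k` classes which are connected inside the blocks. -/
def KIn {n : ℕ} (E : Finset (Fin n × Fin n)) (bl : Fin n → ℕ) (S : Finset (Fin n)) (k : ℕ) :
    Prop :=
  ∃ lab : Fin n → Fin k, ∀ a ∈ S, ∀ b ∈ S, lab a = lab b → Near E bl S 0 a b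

/-- HAND: handshake lemma. -/
def S_HAND : Prop := ∀ (n : ℕ) (E : Finset (Fin n × Fin n)) (S A : Finset (Fin n)), E ⊆ Om n →
  A ⊆ S → ∑ v ∈ A, dg E S v = 2 * (res E A).card + ∑ v ∈ S \ A, dg E A v

/-- PAR: the number of edges of a graph all of whose components meet `B`. -/
def S_PAR : Prop := ∀ (n : ℕ) (E : Finset (Fin n × Fin n)) (A B : Finset (Fin n)), E ⊆ Om n →
  B ⊆ A → (∀ v ∈ A, ∃ b ∈ B, (GG (res E A)).Reachable v b) → A.card ≤ (res E A).card + B.card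

/-- COUNT: few classes if all vertices are near vertices of degree at least three. -/
def S_COUNT : Prop := ∀ (n : ℕ) (E : Finset (Fin n × Fin n)) (bl : Fin n → ℕ)
  (S : Finset (Fin n)) (d : ℕ), E ⊆ Om n → S.Nonempty → (∀ v ∈ S, 2 ≤ dg E S v) →
  (∀ v ∈ S, ∃ w ∈ S, 3 ≤ dg E S w ∧ Near E bl S d v w) →
  ∃ x : ℕ, 1 ≤ x ∧ (res E S).card = S.card + x ∧ KIn E bl S ((6 * d + 2) * x)

/-- LEAF: leaves are not needed for connections. -/
def S_LEAF : Prop := ∀ (n : ℕ) (E : Finset (Fin n × Fin n)) (bl : Fin n → ℕ)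
  (S : Finset (Fin n)) (k : ℕ) (v a b : Fin n), dg E S v ≤ 1 → a ≠ v → b ≠ v →
  Near E bl S k a b → Near E bl (S.erase v) k a b

/-- BALL: balls all of whose vertices have degree at most two. -/
def S_BALL : Prop := ∀ (n : ℕ) (E : Finset (Fin n × Fin n)) (bl : Fin n → ℕ)
  (S : Finset (Fin n)) (k : ℕ) (y : Fin n),
  (∀ w ∈ S, Near E bl S k y w → dg E S w ≤ 2) →
  (∀ B ⊆ S, (∀ v ∈ B, 2 ≤ dg E B v) → (∃ w ∈ B, Near E bl S k y w) → y ∈ B) ∧
  ∀ a ∈ S, ∀ b ∈ S, ¬ Near E bl S k y a → ¬ Near E bl S k y b → Near E bl S k a b →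
    Near E bl (S.filter (fun w => ¬ Near E bl S k y w)) k a b

/-- ELIM: elimination. -/
def S_ELIM : Prop := ∀ (n : ℕ) (E : Finset (Fin n × Fin n)) (bl : Fin n → ℕ)
  (N : Finset (Fin n)) (d : ℕ), E ⊆ Om n →
  (∀ S ⊆ N, S.Nonempty → ∀ x : ℕ, 1 ≤ x → (res E S).card = S.card + x →
    ¬ KIn E bl S ((6 * d + 2) * x)) →
  ∃ Y ⊆ N, Forest E (N \ Y) ∧ ∀ y ∈ Y, ∀ y' ∈ Y, y ≠ y' → ¬ Near E bl N d y y'

/-- UNREL: far apart vertices are unrelated. -/
def S_UNREL : Prop := ∀ (n : ℕ) (E : Finset (Fin n × Fin n)) (bl : Fin n → ℕ)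
  (N Y : Finset (Fin n)) (T : ℕ), E ⊆ Om n → (∀ a b, a ≤ b → bl a ≤ bl b) →
  (∀ a, bl a < T) → (∀ y ∈ Y, ∀ y' ∈ Y, y ≠ y' → ¬ Near E bl N (3 * T) y y') → Unrel E N Y

/-- Bad vertices: large degree, or on an increasing path with `l` edges. -/
def Bad {n : ℕ} (E : Finset (Fin n × Fin n)) (l D : ℕ) (v : Fin n) : Prop :=
  D < dg E univ v ∨ ∃ w : ℕ → Fin n, (∀ i < l, (w i, w (i + 1)) ∈ E) ∧ ∃ i ≤ l, w i = v

/-- The vertices at distance at most `r` from a bad vertex. -/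
def NN {n : ℕ} (E : Finset (Fin n × Fin n)) (l D r : ℕ) : Finset (Fin n) :=
  univ.filter (fun v => ∃ b, Bad E l D b ∧ ∃ p : (GG E).Walk v b, p.length ≤ r)

/-- GOOD: bounded up-sets and down-sets far from bad vertices. -/
def S_GOOD : Prop := ∀ (n : ℕ) (E : Finset (Fin n × Fin n)) (l D : ℕ) (x : Fin n), E ⊆ Om n →
  1 ≤ l → x ∉ NN E l D (2 * l) →
  (univ.filter (fun u => gle E x u)).card ≤ (D + 1) ^ l ∧
  (∀ u, gle E x u → (univ.filter (fun w => gle E w u)).card ≤ (D + 1) ^ l) ∧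
  (univ.filter (fun u => gle E u x)).card ≤ (D + 1) ^ l ∧
  (∀ u, gle E u x → (univ.filter (fun w => gle E u w)).card ≤ (D + 1) ^ l)

/-- INN: comparabilities near bad vertices are realised near bad vertices. -/
def S_INN : Prop := ∀ (n : ℕ) (E : Finset (Fin n × Fin n)) (l D : ℕ) (x z : Fin n), E ⊆ Om n →
  1 ≤ l → x ∈ NN E l D (2 * l) → z ∈ NN E l D (2 * l) → gle E x z →
  gle (res E (NN E l D (3 * l))) x z

/-! ## Probability part -/

/-- The block of a vertex, for `T` blocks. -/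
def blk (n T : ℕ) (v : Fin n) : ℕ := (v : ℕ) * T / n

/-- No small dense set. -/
def Star (T C : ℕ) (κ : ℝ) {n : ℕ} (E : Finset (Fin n × Fin n)) : Prop :=
  ∀ S : Finset (Fin n), S.Nonempty → (S.card : ℝ) ≤ κ * n → ∀ x : ℕ, 1 ≤ x →
    (res E S).card = S.card + x → ¬ KIn E (blk n T) S (C * x)

/-- The configurations for the union bound. -/
def cfg (n T v x k : ℕ) : Finset (Finset (Fin n) × Finset (Fin n × Fin n)) :=
  univ.filter (fun q => q.1.card = v ∧ q.2 ⊆ Om n ∧ (∀ e ∈ q.2, e.1 ∈ q.1 ∧ e.2 ∈ q.1) ∧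
    q.2.card = v + x ∧ KIn q.2 (blk n T) q.1 k)

/-- CNT: the number of configurations. -/
def S_CNT : Prop := ∀ n T v x k : ℕ, 1 ≤ T → T ≤ n →
  v.factorial * (cfg n T v x k).card ≤
    2 ^ (v + x) * (v ^ 2).choose (v + x) * T ^ k * (n / T + 1) ^ v

/-- UBS: the union bound. -/
def S_UBS : Prop := ∀ (p : ℝ) (n T C : ℕ) (κ : ℝ), 0 < p → p < 1 →
  Pr p n (fun E => ¬ Star T C κ E) ≤
    ∑ v ∈ (Icc 1 n).filter (fun v : ℕ => (v : ℝ) ≤ κ * n), ∑ x ∈ Icc 1 (v ^ 2),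
      ((cfg n T v x (C * x)).card : ℝ) * p ^ (v + x)

/-- TERM: the estimate of one term of the union bound. -/
def S_TERM : Prop := ∀ (c : ℝ) (n T v x k : ℕ), 0 < c → 1 ≤ T → T ≤ n → 1 ≤ v →
  (2 : ℝ) ^ (v + x) * ((v ^ 2).choose (v + x) : ℝ) * (T : ℝ) ^ k * ((n / T + 1 : ℕ) : ℝ) ^ v *
      (c / n) ^ (v + x) ≤
    (v.factorial : ℝ) * ((4 * Real.exp 2 * c / T) ^ v * (2 * Real.exp 1 * c * v / n) ^ x *
      (T : ℝ) ^ k)

/-- STAR: no small dense sets. -/
def S_STAR : Prop := ∀ c : ℝ, 0 < c → ∃ T : ℕ, 1 ≤ T ∧ ∀ C : ℕ, ∃ κ : ℝ, 0 < κ ∧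
  Tendsto (fun n : ℕ => Pr (c / n) n (fun E => ¬ Star T C κ E)) atTop (𝓝 0)

/-- The number of members of `F` which are paths of the graph. -/
def PC {n m : ℕ} (E : Finset (Fin n × Fin n)) (F : Finset (Fin (m + 1) → Fin n)) : ℕ :=
  (F.filter (fun w => ∀ i : Fin m, (GG E).Adj (w i.castSucc) (w i.succ))).card

/-- All injective sequences. -/
def Inj (n m : ℕ) : Finset (Fin (m + 1) → Fin n) := univ.filter (fun w => Function.Injective w)

/-- PSUB: the probability that given edges are present. -/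
def S_PSUB : Prop := ∀ (p : ℝ) (n : ℕ) (A : Finset (Fin n × Fin n)), 0 < p → p < 1 → A ⊆ Om n →
  Pr p n (fun E => A ⊆ E) = p ^ A.card

/-- CHEB: Chebyshev's inequality for the number of members of a family contained in `E`. -/
def S_CHEB : Prop := ∀ (p : ℝ) (n : ℕ) (ι : Type) (F : Finset ι)
  (A : ι → Finset (Fin n × Fin n)) (t : ℝ), 0 < p → p < 1 → (∀ i ∈ F, A i ⊆ Om n) → 0 < t →
  Pr p n (fun E => (∑ i ∈ F, p ^ (A i).card) + t < ((F.filter (fun i => A i ⊆ E)).card : ℝ)) ≤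
    ((∑ i ∈ F, ∑ j ∈ F, p ^ (A i ∪ A j).card) - (∑ i ∈ F, p ^ (A i).card) ^ 2) / t ^ 2

/-- The set of edges of a sequence. -/
def ed {n m : ℕ} (w : Fin (m + 1) → Fin n) : Finset (Fin n × Fin n) :=
  univ.image (fun i : Fin m => (min (w i.castSucc) (w i.succ), max (w i.castSucc) (w i.succ)))

/-- PAIRS: paths sharing an edge with a given path. -/
def S_PAIRS : Prop := ∀ (c : ℝ) (n m : ℕ) (w : Fin (m + 1) → Fin n), 0 < c → c < n →
  Function.Injective w →
  ∑ w' ∈ (Inj n m).filter (fun w' => ¬ Disjoint (ed w) (ed w')),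
      (c / n : ℝ) ^ (ed w ∪ ed w').card ≤
    2 ^ m * ((m + 1 : ℕ) : ℝ) ^ (m + 1) * (max 1 c) ^ m * (c / n) ^ m

/-- LLN: upper bounds for the numbers of paths. -/
def S_LLN : Prop := ∀ (c a δ : ℝ) (m : ℕ) (F : (n : ℕ) → Finset (Fin (m + 1) → Fin n)),
  0 < c → 0 ≤ a → 0 < δ → (∀ n, ∀ w ∈ F n, Function.Injective w) →
  (∀ n, ((F n).card : ℝ) ≤ a * (n : ℝ) ^ (m + 1)) →
  Tendsto (fun n : ℕ => Pr (c / n) n (fun E => (a * c ^ m + δ) * n < (PC E (F n) : ℝ)))
    atTop (𝓝 0)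

/-- Injective sequences which are monotone from the index `s` on. -/
def Mon (n s l : ℕ) : Finset (Fin (s + l + 1) → Fin n) :=
  univ.filter (fun w => Function.Injective w ∧
    ((∀ i j : Fin (s + l + 1), s ≤ (i : ℕ) → i < j → w i < w j) ∨
      (∀ i j : Fin (s + l + 1), s ≤ (i : ℕ) → i < j → w j < w i)))

/-- MONCARD: the number of such sequences. -/
def S_MONCARD : Prop := ∀ n s l : ℕ,
  ((Mon n s l).card : ℝ) ≤ 2 / ((l + 1).factorial : ℝ) * (n : ℝ) ^ (s + l + 1)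

/-- COVA: vertices near a vertex of large degree start many paths. -/
def S_COVA : Prop := ∀ (n : ℕ) (E : Finset (Fin n × Fin n)) (D r : ℕ) (v b : Fin n),
  D < dg E univ b → (∃ p : (GG E).Walk v b, p.length ≤ r) →
  ∃ s ≤ r, D - r ≤ ((Inj n (s + 1)).filter (fun w => w 0 = v ∧
    ∀ i : Fin (s + 1), (GG E).Adj (w i.castSucc) (w i.succ))).card

/-- COVB: vertices near an increasing path with `2 * l` edges start a path which is monotone
from some index on. -/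
def S_COVB : Prop := ∀ (n : ℕ) (E : Finset (Fin n × Fin n)) (l r : ℕ) (v b : Fin n), E ⊆ Om n →
  (∃ w : ℕ → Fin n, (∀ i < 2 * l, (w i, w (i + 1)) ∈ E) ∧ ∃ i ≤ 2 * l, w i = b) →
  (∃ p : (GG E).Walk v b, p.length ≤ r) →
  ∃ s ≤ r, ∃ w ∈ Mon n s l, w 0 = v ∧
    ∀ i : Fin (s + l), (GG E).Adj (w i.castSucc) (w i.succ)

/-- COVER: the vertices near bad vertices are counted by paths. -/
def S_COVER : Prop := ∀ (n : ℕ) (E : Finset (Fin n × Fin n)) (l D r : ℕ), E ⊆ Om n →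
  (NN E (2 * l) D r).card * (D - r) ≤
    ∑ s ∈ range (r + 1), PC E (Inj n (s + 1)) +
      (D - r) * ∑ s ∈ range (r + 1), PC E (Mon n s l)

/-- SMALL: few vertices near bad vertices. -/
def S_SMALL : Prop := ∀ c κ : ℝ, 0 < c → 0 < κ → ∃ l D : ℕ, 1 ≤ l ∧
  Tendsto (fun n : ℕ => Pr (c / n) n (fun E => κ * n < ((NN E l D (3 * l)).card : ℝ)))
    atTop (𝓝 0)

/-- LOW: no realiser with at most one linear extension. -/
def S_LOW : Prop := ∀ c : ℝ, 0 < c →
  Tendsto (fun n : ℕ => Pr (c / n) n (fun E => ∃ k ≤ 1, Rlz (gle E) k)) atTop (𝓝 0)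

/-- DET: the deterministic part. -/
def S_DET : Prop := ∀ (n l D T : ℕ) (κ : ℝ) (E : Finset (Fin n × Fin n)), E ⊆ Om n →
  1 ≤ l → 1 ≤ T → ((NN E l D (3 * l)).card : ℝ) ≤ κ * n → Star T (18 * T + 2) κ E →
  Rlz (gle E) (4 * (((D + 1) ^ l) ^ 2 + 1) + 10)

/-- The dimension of the random graph order. -/
def dimG {n : ℕ} (E : Finset (Fin n × Fin n)) : ℕ := sInf {k | Rlz (gle E) k}

/-- The final statement. -/
def S_GOAL : Prop := ∀ c : ℝ, 0 < c → ∃ C : ℕ,
  Tendsto (fun n : ℕ => Pr (c / n) n (fun E => 2 ≤ dimG E ∧ dimG E ≤ C)) atTop (𝓝 1)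

end

end Pool.Agent.H958.RO
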