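import Mathlib
import Pool.Agent.H958.RO.Stm

/-!
# Project RO: FLIP, EXT, UNI, FIN
-/

set_option autoImplicit false

namespace Pool.Agent.H958.RO

open Finset
open scoped Classical
open Pool.Agent.W830.RD (Om gle Pr Rlz)

theorem flip_main : S_FLIP := by
  intro α _ le X k h
  obtain ⟨f, hf, hX⟩ := h
  set B : ℕ := ∑ i, ∑ x, f i x with hB
  have hle : ∀ i x, f i x ≤ B := by
    intro i x
    calc f i x ≤ ∑ x, f i x := Finset.single_le_sum (fun _ _ => Nat.zero_le _) (Finset.mem_univ x)
      _ ≤ ∑ i, ∑ x, f i x :=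
        Finset.single_le_sum (f := fun i => ∑ x, f i x) (fun _ _ => Nat.zero_le _)
          (Finset.mem_univ i)
  refine ⟨fun i x => B - f i x, ?_, ?_⟩
  · intro i x y hxy
    have := hf i y x hxy
    show B - f i x ≤ B - f i y
    omega
  · intro x y hxy
    obtain ⟨i, hi⟩ := hX y x hxy
    refine ⟨i, ?_⟩
    have h1 := hle i y
    have h2 := hle i x
    show B - f i y < B - f i x
    omega

theorem ext_main : S_EXT := by
  intro α _ le le' N X k hr ht hN h
  obtain ⟨f, hf, hX⟩ := h
  have key : ∀ i x, N x → (univ.filter (fun d => N d ∧ le d x)).sup (f i) = f i x := by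
    intro i x hx
    apply le_antisymm
    · apply Finset.sup_le
      intro d hd
      rw [mem_filter] at hd
      exact hf i d x (hN d x hd.2.1 hx hd.2.2)
    · exact Finset.le_sup (f := f i) (by simp [hx, hr x])
  refine ⟨fun i w => (univ.filter (fun d => N d ∧ le d w)).sup (f i), ?_, ?_⟩
  · intro i x y hxy
    apply Finset.sup_mono
    intro d hd
    rw [mem_filter] at hd ⊢
    exact ⟨hd.1, hd.2.1, ht d x y hd.2.2 hxy⟩
  · rintro x y ⟨hx, hy, hxy⟩
    obtain ⟨i, hi⟩ := hX x y hxy
    refine ⟨i, ?_⟩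
    show (univ.filter (fun d => N d ∧ le d y)).sup (f i) <
      (univ.filter (fun d => N d ∧ le d x)).sup (f i)
    rw [key i x hx, key i y hy]
    exact hi

theorem uni_main : S_UNI := by
  intro α le X Y k m h1 h2
  obtain ⟨f, hf, hX⟩ := h1
  obtain ⟨g, hg, hY⟩ := h2
  refine ⟨Fin.append f g, ?_, ?_⟩
  · intro i x y hxy
    refine Fin.addCases (fun j => ?_) (fun j => ?_) i
    · rw [Fin.append_left]; exact hf j x y hxy
    · rw [Fin.append_right]; exact hg j x y hxy
  · intro x y hxy
    rcases hxy with h | h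
    · obtain ⟨i, hi⟩ := hX x y h
      exact ⟨Fin.castAdd m i, by rw [Fin.append_left]; exact hi⟩
    · obtain ⟨i, hi⟩ := hY x y h
      exact ⟨Fin.natAdd k i, by rw [Fin.append_right]; exact hi⟩

theorem gle_le {n : ℕ} {E : Finset (Fin n × Fin n)} (hE : E ⊆ Om n) {x y : Fin n}
    (h : gle E x y) : x ≤ y := by
  induction h with
  | refl => exact le_rfl
  | tail _ h2 ih =>
    have := hE h2
    simp only [Om, mem_filter, mem_univ, true_and] at this
    exact le_trans ih this.le

theorem fin_main : S_FIN := by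
  intro n k E hE hk h
  obtain ⟨f, hf, hX⟩ := h
  have hinj : ∀ i : Fin k, Function.Injective (fun x : Fin n => f i x * n + (x : ℕ)) := by
    intro i x y hxy
    have h1 : (f i x * n + (x : ℕ)) % n = (f i y * n + (y : ℕ)) % n := by
      have : f i x * n + (x : ℕ) = f i y * n + (y : ℕ) := hxy
      rw [this]
    rw [Nat.add_comm, Nat.add_mul_mod_self_right, Nat.mod_eq_of_lt x.2, Nat.add_comm,
      Nat.add_mul_mod_self_right, Nat.mod_eq_of_lt y.2] at h1
    exact Fin.ext h1
  refine ⟨fun i x => f i x * n + (x : ℕ), hinj, ?_⟩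
  intro x y
  constructor
  · intro hxy i
    have h1 := hf i x y hxy
    have h2 : (x : ℕ) ≤ y := gle_le hE hxy
    show f i x * n + (x : ℕ) ≤ f i y * n + (y : ℕ)
    exact Nat.add_le_add (Nat.mul_le_mul_right n h1) h2
  · intro hall
    by_contra hn
    by_cases hyx : gle E y x
    · have h1 := hf ⟨0, hk⟩ y x hyx
      have h2 : (y : ℕ) ≤ x := gle_le hE hyx
      have h3 : f ⟨0, hk⟩ y * n + (y : ℕ) ≤ f ⟨0, hk⟩ x * n + (x : ℕ) :=
        Nat.add_le_add (Nat.mul_le_mul_right n h1) h2
      have h4 := hinj ⟨0, hk⟩ (le_antisymm (hall ⟨0, hk⟩) h3)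
      rw [h4] at hn
      exact hn Relation.ReflTransGen.refl
    · obtain ⟨i, hi⟩ := hX x y ⟨hn, hyx⟩
      have h1 : f i x * n + (x : ℕ) ≤ f i y * n + (y : ℕ) := hall i
      have h2 : (f i y + 1) * n ≤ f i x * n := Nat.mul_le_mul_right n hi
      have h3 := y.2
      nlinarith

end Pool.Agent.H958.RO
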