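import Mathlib
import Pool.Agent.H958.RO.Stm
import Pool.Agent.H958.RO.Ord

/-!
# Project RO: the deterministic part
-/

set_option autoImplicit false

namespace Pool.Agent.H958.RO

open Finset
open scoped Classical
open Pool.Agent.W830.RD (Om gle Pr Rlz)

theorem gle_mono {n : ℕ} {E F : Finset (Fin n × Fin n)} (h : E ⊆ F) {x y : Fin n}
    (hxy : gle E x y) : gle F x y := by
  induction hxy with
  | refl => exact Relation.ReflTransGen.refl
  | tail _ h2 ih => exact ih.tail (h h2)

theorem NN_mono {n : ℕ} (E : Finset (Fin n × Fin n)) (l D : ℕ) {r s : ℕ} (h : r ≤ s) :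
    NN E l D r ⊆ NN E l D s := by
  intro v hv
  simp only [NN, mem_filter, mem_univ, true_and] at hv ⊢
  obtain ⟨b, hb, p, hp⟩ := hv
  exact ⟨b, hb, p, hp.trans h⟩

theorem Rev_mono {α : Type} {le : α → α → Prop} {X Y : α → α → Prop} {k : ℕ}
    (h : ∀ x y, Y x y → X x y) (hX : Rev le X k) : Rev le Y k := by
  obtain ⟨f, hf, hr⟩ := hX
  exact ⟨f, hf, fun x y hxy => hr x y (h x y hxy)⟩

theorem det_main (hSTEP : S_STEP) (hFOREST : S_FOREST) (hYREM : S_YREM) (hELIM : S_ELIM)
    (hUNREL : S_UNREL) (hGOOD : S_GOOD) (hINN : S_INN) : S_DET := by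
  intro n l D T κ E hE hl hT hNN hStar
  set N := NN E l D (3 * l) with hN
  set K := (D + 1) ^ l with hK
  have hsub : NN E l D (2 * l) ⊆ N := NN_mono E l D (by omega)
  -- elimination
  obtain ⟨Y, hYN, hfor, hfar⟩ := hELIM n E (blk n T) N (3 * T) hE (by
    intro S hS hne x hx hcard
    have h1 := hStar S hne (by
      calc ((S.card : ℕ) : ℝ) ≤ (N.card : ℝ) := by exact_mod_cast Finset.card_le_card hS
        _ ≤ κ * n := hNN) x hx hcard
    have h2 : (6 * (3 * T) + 2) * x = (18 * T + 2) * x := by ring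
    rw [h2]
    exact h1)
  have hbl : ∀ a b : Fin n, a ≤ b → blk n T a ≤ blk n T b := by
    intro a b hab
    exact Nat.div_le_div_right (Nat.mul_le_mul_right T hab)
  have hblT : ∀ a : Fin n, blk n T a < T := by
    intro a
    have hn : 0 < n := a.pos
    have : (a : ℕ) * T < T * n := by
      rw [Nat.mul_comm T n]
      exact Nat.mul_lt_mul_of_pos_right a.2 hT
    exact Nat.div_lt_of_lt_mul (by rw [Nat.mul_comm n T]; exact this)
  have hun : Unrel E N Y := hUNREL n E (blk n T) N Y T hE hbl hblT hfar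
  have hrevN : Rev (gle (res E N)) (IncOn E N) (2 * 4 + 2) :=
    hYREM n E N Y 4 hE hYN (by norm_num) hun (hFOREST n E (N \ Y) hE hfor)
  have hrefl : ∀ x, gle E x x := fun x => Relation.ReflTransGen.refl
  have htrans : ∀ x y z, gle E x y → gle E y z → gle E x z := fun x y z h1 h2 => h1.trans h2
  have hA : Rev (gle E) (fun x y => x ∈ NN E l D (2 * l) ∧ y ∈ NN E l D (2 * l) ∧ IncOn E N x y)
      (2 * 4 + 2) :=
    ext_main (Fin n) (gle E) (gle (res E N)) (fun x => x ∈ NN E l D (2 * l)) (IncOn E N) _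
      hrefl htrans (fun x y hx hy hxy => hINN n E l D x y hE hl hx hy hxy) hrevN
  have hB : Rev (gle E) (fun x y => x ∉ NN E l D (2 * l) ∧ ¬ gle E x y) (2 * (K ^ 2 + 1)) :=
    hSTEP (Fin n) (gle E) K (fun x => x ∉ NN E l D (2 * l)) hrefl htrans
      (fun x hx => (hGOOD n E l D x hE hl hx).1)
      (fun x hx => (hGOOD n E l D x hE hl hx).2.1)
  have hC : Rev (gle E) (fun x y => y ∉ NN E l D (2 * l) ∧ ¬ gle E x y) (2 * (K ^ 2 + 1)) := by
    apply flip_main (Fin n)
    exact hSTEP (Fin n) (fun x y => gle E y x) K (fun x => x ∉ NN E l D (2 * l)) hrefl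
      (fun x y z h1 h2 => h2.trans h1)
      (fun x hx => (hGOOD n E l D x hE hl hx).2.2.1)
      (fun x hx => (hGOOD n E l D x hE hl hx).2.2.2)
  have hall := uni_main (Fin n) (gle E) _ _ _ _ (uni_main (Fin n) (gle E) _ _ _ _ hB hC) hA
  have hfinal := fin_main n _ E hE (by omega) (Rev_mono (Y := fun x y => ¬ gle E x y ∧ ¬ gle E y x)
    (by
      rintro x y ⟨h1, h2⟩
      by_cases hx : x ∈ NN E l D (2 * l)
      · by_cases hy : y ∈ NN E l D (2 * l)
        · right
          refine ⟨hx, hy, hsub hx, hsub hy, ?_, ?_⟩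
          · exact fun h => h1 (gle_mono (Finset.filter_subset _ _) h)
          · exact fun h => h2 (gle_mono (Finset.filter_subset _ _) h)
        · left; right
          exact ⟨hy, h1⟩
      · left; left
        exact ⟨hx, h1⟩) hall)
  have hk : 2 * (K ^ 2 + 1) + 2 * (K ^ 2 + 1) + (2 * 4 + 2) = 4 * (K ^ 2 + 1) + 10 := by ring
  rw [hk] at hfinal
  exact hfinal

end Pool.Agent.H958.RO
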