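import Mathlib
import Pool.Agent.H958.RO.Stm
import Pool.Agent.H958.RO.Ord
import Pool.Agent.H958.RO.Det
import Pool.Graph.R_seed8.W657.RD.PBas

/-!
# Project RO: LOW and the final assembly
-/

set_option autoImplicit false

namespace Pool.Agent.H958.RO

open Finset Filter Topology
open scoped Classical
open Pool.Agent.W830.RD (Om gle Pr Rlz S_PBAS)

theorem gle_anti {n : ℕ} {E : Finset (Fin n × Fin n)} (hE : E ⊆ Om n) {x y : Fin n}
    (h : gle E x y) (h' : gle E y x) : x = y :=
  le_antisymm (gle_le hE h) (gle_le hE h')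

/-- A realiser with at most one linear extension needs the first edge. -/
theorem low_det {n : ℕ} (hn : 2 ≤ n) {E : Finset (Fin n × Fin n)} (hE : E ⊆ Om n)
    (h : ∃ k ≤ 1, Rlz (gle E) k) :
    {((⟨0, by omega⟩ : Fin n), (⟨1, by omega⟩ : Fin n))} ⊆ E := by
  obtain ⟨k, hk, f, hf, hr⟩ := h
  have h01 : ¬ gle E (⟨1, by omega⟩ : Fin n) (⟨0, by omega⟩ : Fin n) := by
    intro h
    have := gle_le hE h
    simp [Fin.le_def] at this
  have htot : gle E (⟨0, by omega⟩ : Fin n) (⟨1, by omega⟩ : Fin n) := by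
    interval_cases k
    · exact absurd ((hr _ _).2 (fun i => i.elim0)) h01
    · rw [hr] at h01 ⊢
      push Not at h01
      obtain ⟨i, hi⟩ := h01
      intro j
      have : j = i := Subsingleton.elim _ _
      rw [this]
      exact hi.le
  rw [Finset.singleton_subset_iff]
  rcases Relation.ReflTransGen.cases_head htot with h | ⟨c, hc1, hc2⟩
  · exact absurd h (by simp)
  · have h1 := hE hc1
    simp only [Om, mem_filter, mem_univ, true_and] at h1
    have h2 : c ≤ ⟨1, by omega⟩ := gle_le hE hc2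
    have h3 : c = ⟨1, by omega⟩ := by
      apply Fin.ext
      have h4 : (0 : ℕ) < c := h1
      have h5 : (c : ℕ) ≤ 1 := h2
      show (c : ℕ) = 1
      omega
    rw [← h3]
    exact hc1

theorem low_main (hP : S_PSUB) : S_LOW := by
  intro c hc
  have hlim : Tendsto (fun n : ℕ => c / (n : ℝ)) atTop (𝓝 0) :=
    tendsto_const_div_atTop_nhds_zero_nat c
  refine tendsto_of_tendsto_of_tendsto_of_le_of_le' tendsto_const_nhds hlim ?_ ?_
  · filter_upwards [eventually_gt_atTop (max 2 ⌈c⌉₊)] with n hn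
    have h2 : 2 < n := (le_max_left _ _).trans_lt hn
    have hcn : c < n := by
      calc c ≤ ⌈c⌉₊ := Nat.le_ceil c
        _ < n := by exact_mod_cast (le_max_right _ _).trans_lt hn
    have hn0 : (0 : ℝ) < n := by exact_mod_cast (by omega : 0 < n)
    exact (Pool.Agent.W657.RD.PBas.main (c / n) n (div_pos hc hn0)
      ((div_lt_one hn0).2 hcn)).2.1 _
  · filter_upwards [eventually_gt_atTop (max 2 ⌈c⌉₊)] with n hn
    have h2 : 2 < n := (le_max_left _ _).trans_lt hn
    have hcn : c < n := by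
      calc c ≤ ⌈c⌉₊ := Nat.le_ceil c
        _ < n := by exact_mod_cast (le_max_right _ _).trans_lt hn
    have hn0 : (0 : ℝ) < n := by exact_mod_cast (by omega : 0 < n)
    have hB := Pool.Agent.W657.RD.PBas.main (c / n) n (div_pos hc hn0)
      ((div_lt_one hn0).2 hcn)
    refine (hB.2.2.1 _ (fun E => {((⟨0, by omega⟩ : Fin n), (⟨1, by omega⟩ : Fin n))} ⊆ E)
      (fun E hE h => low_det (by omega) hE h)).trans ?_
    rw [hP (c / n) n _ (div_pos hc hn0) ((div_lt_one hn0).2 hcn) (by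
      rw [Finset.singleton_subset_iff]
      simp only [Om, mem_filter, mem_univ, true_and]
      exact Nat.zero_lt_one)]
    simp

theorem goal_main (hDET : S_DET) (hSTAR : S_STAR) (hSMALL : S_SMALL) (hLOW : S_LOW) :
    S_GOAL := by
  intro c hc
  obtain ⟨T, hT, hS⟩ := hSTAR c hc
  obtain ⟨κ, hκ, hlim1⟩ := hS (18 * T + 2)
  obtain ⟨l, D, hl, hlim2⟩ := hSMALL c κ hc hκ
  have hlim3 := hLOW c hc
  refine ⟨4 * (((D + 1) ^ l) ^ 2 + 1) + 10, ?_⟩
  have hsum : Tendsto (fun n : ℕ => 1 - (Pr (c / n) n (fun E => ¬ Star T (18 * T + 2) κ E) +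
      (Pr (c / n) n (fun E => κ * n < ((NN E l D (3 * l)).card : ℝ)) +
        Pr (c / n) n (fun E => ∃ k ≤ 1, Rlz (gle E) k)))) atTop (𝓝 1) := by
    have := (tendsto_const_nhds (x := (1 : ℝ)) (f := atTop (α := ℕ))).sub
      (hlim1.add (hlim2.add hlim3))
    simpa using this
  refine tendsto_of_tendsto_of_tendsto_of_le_of_le' hsum tendsto_const_nhds ?_ ?_
  · filter_upwards [eventually_gt_atTop (max 2 ⌈c⌉₊)] with n hn
    have h2 : 2 < n := (le_max_left _ _).trans_lt hn
    have hcn : c < n := by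
      calc c ≤ ⌈c⌉₊ := Nat.le_ceil c
        _ < n := by exact_mod_cast (le_max_right _ _).trans_lt hn
    have hn0 : (0 : ℝ) < n := by exact_mod_cast (by omega : 0 < n)
    obtain ⟨b1, b2, b3, b4, b5, b6⟩ := Pool.Agent.W657.RD.PBas.main (c / n) n (div_pos hc hn0)
      ((div_lt_one hn0).2 hcn)
    have h5 := b5 (fun E => 2 ≤ dimG E ∧ dimG E ≤ 4 * (((D + 1) ^ l) ^ 2 + 1) + 10)
    have h6 : Pr (c / n) n (fun E => ¬ (2 ≤ dimG E ∧
        dimG E ≤ 4 * (((D + 1) ^ l) ^ 2 + 1) + 10)) ≤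
        Pr (c / n) n (fun E => ¬ Star T (18 * T + 2) κ E) +
        (Pr (c / n) n (fun E => κ * n < ((NN E l D (3 * l)).card : ℝ)) +
          Pr (c / n) n (fun E => ∃ k ≤ 1, Rlz (gle E) k)) := by
      refine (b3 _ (fun E => ¬ Star T (18 * T + 2) κ E ∨
        (κ * n < ((NN E l D (3 * l)).card : ℝ) ∨ ∃ k ≤ 1, Rlz (gle E) k)) ?_).trans
        ((b4 _ _).trans (add_le_add le_rfl (b4 _ _)))
      intro E hE hnot
      by_contra hcon
      push Not at hcon
      obtain ⟨c1, c2, c3⟩ := hcon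
      have hR := hDET n l D T κ E hE hl hT c2 c1
      apply hnot
      constructor
      · by_contra hlt
        push Not at hlt
        have hmem : dimG E ∈ {k | Rlz (gle E) k} := Nat.sInf_mem ⟨_, hR⟩
        exact c3 (dimG E) (by omega) hmem
      · exact Nat.sInf_le hR
    linarith
  · filter_upwards [eventually_gt_atTop (max 2 ⌈c⌉₊)] with n hn
    have h2 : 2 < n := (le_max_left _ _).trans_lt hn
    have hcn : c < n := by
      calc c ≤ ⌈c⌉₊ := Nat.le_ceil c
        _ < n := by exact_mod_cast (le_max_right _ _).trans_lt hn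
    have hn0 : (0 : ℝ) < n := by exact_mod_cast (by omega : 0 < n)
    obtain ⟨b1, b2, b3, b4, b5, b6⟩ := Pool.Agent.W657.RD.PBas.main (c / n) n (div_pos hc hn0)
      ((div_lt_one hn0).2 hcn)
    have h7 := b3 (fun E => 2 ≤ dimG E ∧ dimG E ≤ 4 * (((D + 1) ^ l) ^ 2 + 1) + 10)
      (fun _ => True) (fun _ _ _ => trivial)
    rw [b1] at h7
    exact h7

end Pool.Agent.H958.RO
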