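import Mathlib
import Pool.Agent.H958.RO.Stm
import Pool.Agent.H958.RO.Ord
import Pool.Agent.H958.RO.Det
import Pool.Agent.H958.RO.Goal
import Pool.Agent.H195.RO.Good
import Pool.Agent.H264.RO.Count
import Pool.Agent.H278.RO.Pairs
import Pool.Agent.H32.RO.Leaf
import Pool.Agent.H349.RO.Term
import Pool.Agent.H407.RO.Unrel
import Pool.Agent.H52.RO.Star
import Pool.Agent.H553.RO.Forest
import Pool.Agent.H603.RO.Cheb
import Pool.Agent.H695.RO.Hand
import Pool.Agent.H828.RO.CovA
import Pool.Agent.H84.RO.Elim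
import Pool.Agent.H92.RO.Ubs
import Pool.Agent.H922.RO.Addr
import Pool.Agent.H94.RO.Cover
import Pool.Agent.H947.RO.Par
import Pool.Agent.H397.RO.Step
import Pool.Agent.H729.RO.YRem
import Pool.Agent.H155.RO.Inn
import Pool.Agent.H282.RO.Lln
import Pool.Agent.H935.RO.MonCard
import Pool.Agent.H763.RO.CovB
import Pool.Agent.H975.RO.Small
import Pool.Agent.H358.RO.Cnt
import Pool.Agent.H358.RO.Ball

/-!
# Project RO: assembly
-/

set_option autoImplicit false

namespace Pool.Agent.H958.RO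

theorem ro_main (hBALL : S_BALL) (hCNT : S_CNT) : S_GOAL := by
  have hPSUB : S_PSUB := Pool.Agent.H603.RO.Cheb.main1
  have hCHEB : S_CHEB := Pool.Agent.H603.RO.Cheb.main2
  have hCOUNT : S_COUNT :=
    Pool.Agent.H264.RO.Count.main Pool.Agent.H695.RO.Hand.main Pool.Agent.H947.RO.Par.main
  have hELIM : S_ELIM := Pool.Agent.H84.RO.Elim.main hCOUNT Pool.Agent.H32.RO.Leaf.main hBALL
  have hFOREST : S_FOREST := Pool.Agent.H553.RO.Forest.main Pool.Agent.H922.RO.Addr.main
  have hDET : S_DET := det_main Pool.Agent.H397.RO.Step.main hFOREST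
    Pool.Agent.H729.RO.YRem.main hELIM Pool.Agent.H407.RO.Unrel.main
    Pool.Agent.H195.RO.Good.main Pool.Agent.H155.RO.Inn.main
  have hSTAR : S_STAR := Pool.Agent.H52.RO.Star.main (Pool.Agent.H92.RO.Ubs.main hPSUB)
    Pool.Agent.H349.RO.Term.main hCNT
  have hLLN : S_LLN := Pool.Agent.H282.RO.Lln.main hCHEB Pool.Agent.H278.RO.Pairs.main
  have hCOVER : S_COVER :=
    Pool.Agent.H94.RO.Cover.main Pool.Agent.H828.RO.CovA.main Pool.Agent.H763.RO.CovB.main
  have hSMALL : S_SMALL :=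
    Pool.Agent.H975.RO.Small.main hLLN Pool.Agent.H935.RO.MonCard.main hCOVER
  exact goal_main hDET hSTAR hSMALL (low_main hPSUB)

theorem goal : S_GOAL := ro_main Pool.Agent.H358.RO.Ball.main Pool.Agent.H358.RO.Cnt.main

end Pool.Agent.H958.RO
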