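import Mathlib
import Pool.Agent.H958.RO.Stm

/-!
# Project RO: realisers by linear orders and by injective functions
-/

set_option autoImplicit false

namespace Pool.Agent.H958.RO

open Finset
open scoped Classical
open Pool.Agent.W830.RD (Om gle Pr Rlz)

theorem rlz_iff {n : ℕ} (E : Finset (Fin n × Fin n)) (k : ℕ) :
    Rlz (gle E) k ↔ ∃ L : Fin k → Fin n → Fin n → Prop, (∀ i, IsLinearOrder (Fin n) (L i)) ∧
      ∀ x y, gle E x y ↔ ∀ i, L i x y := by
  constructor
  · rintro ⟨f, hf, hr⟩
    refine ⟨fun i x y => f i x ≤ f i y, fun i => ?_, hr⟩
    exact { refl := fun x => le_rfl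
            trans := fun x y z h1 h2 => le_trans h1 h2
            antisymm := fun x y h1 h2 => hf i (le_antisymm h1 h2)
            total := fun x y => le_total _ _ }
  · rintro ⟨L, hL, hr⟩
    have hrefl : ∀ i x, L i x x := fun i x => (hL i).refl x
    have htrans : ∀ i x y z, L i x y → L i y z → L i x z := fun i x y z => (hL i).trans x y z
    have hanti : ∀ i x y, L i x y → L i y x → x = y := fun i x y => (hL i).antisymm x y
    have htot : ∀ i x y, L i x y ∨ L i y x := fun i x y => (hL i).total x y
    have key : ∀ i x y, L i x y ↔ (univ.filter (fun z => L i z x)).card ≤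
        (univ.filter (fun z => L i z y)).card := by
      intro i x y
      constructor
      · intro h
        apply Finset.card_le_card
        intro z hz
        rw [mem_filter] at hz ⊢
        exact ⟨hz.1, htrans i z x y hz.2 h⟩
      · intro h
        by_contra hxy
        have hyx := (htot i x y).resolve_left hxy
        have : (univ.filter (fun z => L i z y)).card < (univ.filter (fun z => L i z x)).card := by
          apply Finset.card_lt_card
          rw [Finset.ssubset_iff_of_subset]
          · exact ⟨x, by simp [hrefl i x], by simp [hxy]⟩
          · intro z hz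
            rw [mem_filter] at hz ⊢
            exact ⟨hz.1, htrans i z y x hz.2 hyx⟩
        omega
    refine ⟨fun i x => (univ.filter (fun z => L i z x)).card, ?_, ?_⟩
    · intro i x y hxy
      exact hanti i x y ((key i x y).2 (le_of_eq hxy)) ((key i y x).2 (ge_of_eq hxy))
    · intro x y
      rw [hr]
      exact forall_congr' (fun i => key i x y)

end Pool.Agent.H958.RO
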