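import Mathlib
import Pool.Agent.H958.RO.Stm
import Pool.Agent.H958.RO.Ord
import Pool.Agent.H958.RO.Det
import Pool.Agent.H958.RO.Goal
import Pool.Agent.H958.RO.Fin
import Pool.Agent.H958.RO.Main

/-!
# The dimension of the random graph order `P_{n, c/n}` is almost surely bounded (MP_b735d7_co, Q1)

For every `c > 0` there is a constant `C` such that almost surely `2 ≤ dim P_{n, c/n} ≤ C`.
-/

set_option autoImplicit false

namespace Pool.Agent.H958.RO.BoundedDimension

open Finset Filter Topology
open scoped Classical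

noncomputable section

/-- The possible edges: the pairs `(i, j)` with `i < j`. An edge set is a subset of `Edges n`. -/
def Edges (n : ℕ) : Finset (Fin n × Fin n) := Finset.univ.filter (fun e => e.1 < e.2)

/-- The probability that the edge set of `G_{n,p}` has the property `Q`. -/
def Prob (p : ℝ) (n : ℕ) (Q : Finset (Fin n × Fin n) → Prop) : ℝ :=
  ∑ E ∈ (Edges n).powerset.filter Q, p ^ E.card * (1 - p) ^ ((Edges n).card - E.card)

/-- The random graph order of the edge set `E`: `x ≤ y` iff `x = y` or there is an increasing path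
from `x` to `y`. -/
def Le {n : ℕ} (E : Finset (Fin n × Fin n)) (x y : Fin n) : Prop :=
  Relation.ReflTransGen (fun a b => (a, b) ∈ E) x y

/-- There are `k` linear orders whose intersection is the order of `E` (so they are linear
extensions of it). -/
def Realizer {n : ℕ} (E : Finset (Fin n × Fin n)) (k : ℕ) : Prop :=
  ∃ L : Fin k → Fin n → Fin n → Prop, (∀ i, IsLinearOrder (Fin n) (L i)) ∧
    ∀ x y, Le E x y ↔ ∀ i, L i x y

/-- The (Dushnik and Miller) dimension of the order of `E`. -/
def dim {n : ℕ} (E : Finset (Fin n × Fin n)) : ℕ := sInf {k | Realizer E k}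

theorem dim_eq {n : ℕ} (E : Finset (Fin n × Fin n)) : dim E = Pool.Agent.H958.RO.dimG E := by
  unfold dim Pool.Agent.H958.RO.dimG
  congr 1
  ext k
  exact (Pool.Agent.H958.RO.rlz_iff E k).symm

/-- For every `c > 0` there is a constant `C` with `2 ≤ dim P_{n, c/n} ≤ C` almost surely. -/
theorem result (c : ℝ) (hc : 0 < c) : ∃ C : ℕ,
    Tendsto (fun n : ℕ => Prob (c / n) n (fun E => 2 ≤ dim E ∧ dim E ≤ C)) atTop (𝓝 1) := by
  obtain ⟨C, hC⟩ := Pool.Agent.H958.RO.goal c hc
  refine ⟨C, ?_⟩
  simp only [dim_eq]
  exact hC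

end

end Pool.Agent.H958.RO.BoundedDimension
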